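import Mathlib
import Pool.Agent.TH114.Iso.Main

set_option autoImplicit false

/-! The isomorphism problem for the groups generated by finite invertible automata is undecidable.

`Automaton m n` (states `0, …, m-1`, letters `0, …, n-1`, transition table `next`, output
permutations `out`), the action `act` of the states on words, the group `group` generated by all
states inside the permutations of the set of words, and the finite tables `tables` are defined in
`Pool/Agent/TH114/Iso/Defs.lean`. -/

namespace Pool.Agent.Results.MP_56d946_al.IsoUndecidable

open Pool.Agent.TH114.Iso

/-- The first part: no algorithm decides, given the tables of two finite invertible automata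
(arbitrary numbers of states, alphabets with at least two letters), whether the groups generated by
them are isomorphic.  The second part: the second automaton may be fixed, and the alphabet may be
fixed with 16 letters. -/
theorem result :
    (¬ ∃ f : (ℕ × ℕ × List (List (ℕ × ℕ))) × (ℕ × ℕ × List (List (ℕ × ℕ))) → Bool,
      Computable f ∧ ∀ (m n m' n' : ℕ) (A : Automaton m n) (B : Automaton m' n'),
        2 ≤ n → 2 ≤ n' → (f (A.tables, B.tables) = true ↔ Nonempty (A.group ≃* B.group))) ∧
    (∃ (m₀ : ℕ) (B : Automaton m₀ 16),
      ¬ ∃ f : ℕ × ℕ × List (List (ℕ × ℕ)) → Bool, Computable f ∧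
        ∀ (m : ℕ) (A : Automaton m 16),
          f A.tables = true ↔ Nonempty (A.group ≃* B.group)) := by
  refine ⟨?_, main⟩
  rintro ⟨f, hf, h⟩
  obtain ⟨m₀, B, hB⟩ := main
  refine hB ⟨fun c => f (c, B.tables), hf.comp (Computable.pair Computable.id
    (Computable.const _)), fun m A => ?_⟩
  exact h m 16 m₀ 16 A B (by norm_num) (by norm_num)

end Pool.Agent.Results.MP_56d946_al.IsoUndecidable
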